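import Pool.Agent.Q301.UF.Fz

/-!
# A locally compact space with a denumerable remainder, but not with the remainder `ℕ(∞)`

If there is a model of ZF, then there is a model of ZF with a locally compact Hausdorff space that
has a denumerable remainder, but of which `ℕ(∞)` is not a remainder. The space is discrete; see
`Pool.Agent.Results.MP_ea9bab_gt.DenumerableRemainder` for the model.
-/

namespace Pool.Agent.Results.MP_5ed4ef_gt.LocallyCompactRemainder

open FirstOrder FirstOrder.Language
open Pool.Agent.Helper672.Plain (LSet El Mem)
open Pool.Agent.H635Amen (ZF)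
open Pool.Agent.H310Top (IsTopology IsHausdorff)
open Pool.Agent.Q301.UF

universe u

theorem result (h : ∃ (M : Type u) (_ : LSet.Structure M), ZF M) :
    ∃ (N : Type u) (_ : LSet.Structure N), ZF N ∧
      ∃ t x : N, IsTopology t x ∧ IsHausdorff t x ∧ IsLocallyCompact t x ∧
        (∃ y s, IsDenumerable y ∧ IsRemainder s y t x) ∧
        ∀ y s, IsNInf s y → ¬ IsRemainder s y t x :=
  p5ed4ef h

end Pool.Agent.Results.MP_5ed4ef_gt.LocallyCompactRemainder
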